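import Pool.Agent.U407.NP20

/-!
Poles of `L`-functions and ranks of groups of cycle classes for products of a surface
`y ^ p - y = f(x, t)` and an arbitrary variety over a finitely generated field of characteristic `p`.
-/

set_option autoImplicit false
set_option maxHeartbeats 1000000

open Polynomial Module TensorProduct

namespace Pool.Agent.Results.MP_223b32_ag.AnalyticOrdersOfProducts

section place

variable {κ : Type} [Field κ]

/-- The polynomial `f` in `x` (outer variable) and `t` (inner variable) has the form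
`f = u x ^ a + w t ^ b + (terms with x ^ m t ^ n for which b m + a n < a b)`, `u, w ≠ 0`. -/
structure HasLeadingExponents (a b : ℕ) (f : κ[X][X]) : Prop where
  pos_a : a ≠ 0
  pos_b : b ≠ 0
  coeff_x : (f.coeff a).coeff 0 ≠ 0
  coeff_t : (f.coeff 0).coeff b ≠ 0
  rest : ∀ m n, (f.coeff m).coeff n ≠ 0 →
    (m = a ∧ n = 0) ∨ (m = 0 ∧ n = b) ∨ b * m + a * n < a * b

/-- The number of points `v = (t, x, y)` over the field with `Q` elements of the surface
`y ^ p - y = f(x, t)`. -/
noncomputable def points (p : ℕ) (f : κ[X][X]) (Q : ℕ) : ℕ :=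
  Nat.card {v : AlgebraicClosure κ × AlgebraicClosure κ × AlgebraicClosure κ //
    v.1 ^ Q = v.1 ∧ v.2.1 ^ Q = v.2.1 ∧ v.2.2 ^ Q = v.2.2 ∧
    v.2.2 ^ p - v.2.2 =
      f.eval₂ (eval₂RingHom (algebraMap κ (AlgebraicClosure κ)) v.1) v.2.1}

/-- The known properties of Frobenius `Φ` on the second cohomology with compact supports `V` of the
affine surface `y ^ p - y = f(x, t)` over the finite field `κ`: the Lefschetz trace formula holds and
`V` is pure of weight two. -/
structure IsCohomology (p : ℕ) (f : κ[X][X]) {V : Type} [AddCommGroup V] [Module ℂ V]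
    (Φ : Module.End ℂ V) : Prop where
  trace : ∀ m : ℕ, m ≠ 0 → LinearMap.trace ℂ V (Φ ^ m) =
    (points p f (Nat.card κ ^ m) : ℂ) - ((Nat.card κ : ℂ) ^ m) ^ 2
  pure : ∀ α, Φ.HasEigenvalue α → ‖α‖ = (Nat.card κ : ℝ)

end place

section galois

variable {Γ : Type} [Group Γ]

/-- `Γ` is the fundamental group of a smooth variety `U`, geometrically irreducible over the field
with `q` elements, `N` is the geometric fundamental group, `χ` the inverse of the cyclotomic
character, `φ` an element which maps to the geometric Frobenius of the field with `q` elements and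
`σ` a geometric Frobenius at a closed point of degree `n`, with residue field `κ`. -/
structure IsPlace (κ : Type) (q n : ℕ) (N : Subgroup Γ) (χ : Γ →* ℂˣ) (φ σ : Γ) : Prop where
  normal : N.Normal
  geometric : ∀ ν ∈ N, χ ν = 1
  frobenius : ((χ φ : ℂˣ) : ℂ) = q
  residue : Nat.card κ = q ^ n
  place : ∃ ν ∈ N, σ = φ ^ n * ν

/-- The linear forms on the representation `M` which are invariant under `N` and in the generalized
eigenspace of the transpose of `φ` for the eigenvalue `c`. This is the dual space of the
generalized eigenspace of `φ` for `c` on the coinvariants of `M` under `N`. -/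
noncomputable def poleSpace {M : Type} [AddCommGroup M] [Module ℂ M]
    (ρ : Representation ℂ Γ M) (N : Subgroup Γ) (φ : Γ) (c : ℂ) : Submodule ℂ (Dual ℂ M) :=
  (⨅ ν : N, Module.End.eigenspace (ρ (ν : Γ)).dualMap 1) ⊓
    Module.End.maxGenEigenspace (ρ φ).dualMap c

/-- The dimension of `poleSpace` for `c = q ^ r`. If `M` is the whole cohomology of the
generic fibre of a smooth projective family over `U`, this is the order of the pole of the `L`-function
of `H ^ (2 r)` at `s = r + dim U`. -/
noncomputable def order {M : Type} [AddCommGroup M] [Module ℂ M]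
    (ρ : Representation ℂ Γ M) (N : Subgroup Γ) (φ : Γ) (q : ℕ) (r : ℤ) : ℕ :=
  finrank ℂ (poleSpace ρ N φ ((q : ℂ) ^ r))

variable {H V Z : Type} [AddCommGroup H] [Module ℂ H] [AddCommGroup V] [Module ℂ V]
  [AddCommGroup Z] [Module ℂ Z]

/-- The known properties of the cohomology `H` of a smooth projective compactification, over a
finitely generated field, of the affine surface with cohomology `V`, with cup product form `BX`: the
vectors `w k` are a basis of the span of the classes of the algebraic cycles, consisting of cycle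
classes of codimension `j k` (exactly one of codimension `0`), `ws k` is the dual basis, and `i` is the
natural map from the cohomology with compact supports; its image is orthogonal to the algebraic
classes, and generates `H` together with them. -/
structure IsSurface (χ : Γ →* ℂˣ) (ρV : Representation ℂ Γ V) (ρH : Representation ℂ Γ H)
    (i : V →ₗ[ℂ] H) {m : ℕ} (w ws : Fin m → H) (j : Fin m → ℤ)
    (BX : LinearMap.BilinForm ℂ H) : Prop where
  injective : Function.Injective i
  equivariant : ∀ γ v, i (ρV γ v) = ρH γ (i v)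
  algebraic : ∀ γ k, ρH γ (w k) = ((χ γ : ℂˣ) : ℂ) ^ (j k) • w k
  span : Submodule.span ℂ (Set.range w) ⊔ LinearMap.range i = ⊤
  dual : ∀ k l, BX (ws k) (w l) = if k = l then 1 else 0
  orthogonal : ∀ k v, BX (ws k) (i v) = 0
  codimensions : ∃ k₀, j k₀ = 0 ∧ ∀ k, k ≠ k₀ → 1 ≤ j k

/-- The linear map `h ⊗ z ↦ ⟨w, h⟩ z`: the direct image on the second factor of the product with the
inverse image of `w`. -/
noncomputable def pushforward (BX : LinearMap.BilinForm ℂ H) (w : H) : H ⊗[ℂ] Z →ₗ[ℂ] Z :=
  (TensorProduct.lid ℂ Z).toLinearMap ∘ₗ LinearMap.rTensor Z (BX w)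

/-- The known properties of the rational vector spaces `A r` and `C r` of the classes of cycles of
codimension `r`, over the finitely generated field and with rational coefficients, on a variety with
cohomology `Z` and on its product with the surface, with cohomology `H ⊗ Z`. -/
structure AreCycleClasses [Module ℚ H] [Module ℚ Z] (χ : Γ →* ℂˣ) (ρH : Representation ℂ Γ H)
    (ρZ : Representation ℂ Γ Z) {m : ℕ} (w ws : Fin m → H) (j : Fin m → ℤ)
    (BX : LinearMap.BilinForm ℂ H) (A : ℤ → Submodule ℚ Z) (C : ℤ → Submodule ℚ (H ⊗[ℂ] Z)) :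
    Prop where
  galois : ∀ r, ∀ c ∈ C r, ∀ γ, ρH.tprod ρZ γ c = ((χ γ : ℂˣ) : ℂ) ^ r • c
  product : ∀ r k, ∀ z ∈ A (r - j k), w k ⊗ₜ[ℂ] z ∈ C r
  push : ∀ r k, ∀ c ∈ C r, pushforward BX (ws k) c ∈ A (r - j k)

end galois

/-- The slope of `β` for an embedding `τ` of the complex numbers in an algebraic closure of `ℚ_p`: the
`p`-adic valuation of `τ β`, normalized so that `q` has slope one. -/
noncomputable def slope (p : ℕ) [Fact p.Prime] (q : ℕ) (τ : ℂ →+* PadicAlgCl p) (β : ℂ) : ℝ :=
  Real.log ‖τ β‖ / Real.log ‖(q : PadicAlgCl p)‖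

/-- The number `s` is not of the form `r + i / a + j / b` with `r ∈ ℤ`, `0 < i < a`, `0 < j < b`. For
coprime `a` and `b` this means: if `a b s` is an integer then `a s` or `b s` is an integer. -/
def Avoids (a b : ℕ) (s : ℝ) : Prop :=
  ∀ (r : ℤ) (i j : ℕ), 0 < i → i < a → 0 < j → j < b → s ≠ r + i / a + j / b

/-- Each eigenvalue `β` of `G` of weight `2 r - 2` for the field `κ` has, for some embedding `τ`, a
slope with the property `Avoids`. -/
def GoodSlopes (κ : Type) (p : ℕ) [Fact p.Prime] (a b : ℕ) {Z : Type} [AddCommGroup Z]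
    [Module ℂ Z] (G : Module.End ℂ Z) (r : ℤ) : Prop :=
  ∀ β, G.HasEigenvalue β → ‖β‖ = (Nat.card κ : ℝ) ^ (r - 1) →
    ∃ τ : ℂ →+* PadicAlgCl p, Avoids a b (slope p (Nat.card κ) τ β)

/-- **Poles and ranks for products with surfaces `y ^ p - y = f(x, t)` over finitely generated
fields.**

Let `K` be a field of characteristic `p`, finitely generated over the prime field, with constant
field of `q` elements. Let `a` and `b` divide `p - 1` and let `f = u x ^ a + w t ^ b + …` in `K[x, t]`,
where `u, w ≠ 0` and the other terms `x ^ m t ^ n` have `m / a + n / b < 1`. Let `𝒳` be a smooth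
projective surface over `K` which contains the affine surface `y ^ p - y = f(x, t)` as the
complement of a union of geometrically irreducible curves, and let `𝒵` be **any** smooth projective
variety over `K`. Let `𝒳` and `𝒵` (with the curves at infinity, as a divisor with relative normal
crossings, and with `u`, `w` units) extend to smooth projective families over a smooth variety `U`
over the constant field, with function field `K`, fundamental group `Γ`, geometric fundamental group
`N` and Frobenius `φ` (`IsPlace`). Let `V`, `H`, `Z` be the cohomology groups (coefficients `ℂ ≅ ℚ̄_ℓ`;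
cycle classes are considered after the choice of a generator of `ℚ_ℓ(1)`) of the affine surface (with
compact supports, degree two), of `𝒳` and of `𝒵`, over an algebraic closure of `K`; the group `Γ`
acts on them. `H` is the orthogonal sum of `V` and the span of the classes of the curves at infinity,
of `𝒳` and of a point (`IsSurface`; see `MP_1fe969_ag.ArtinSchreierSurfaces`).

The order of the pole of the `L`-function of `H ^ (2 r)` at `s = r + dim U` is `order`: by
Grothendieck's formula and Deligne's theorem on weights only the cohomology with compact supports of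
`U` of degree `2 dim U` contributes, i.e. the coinvariants under `N`, and there only the part of
degree `2 r` has the weight `2 r`.

Let `s` be **one** closed point of `U`, with residue field `κ`, for which the slopes of Frobenius `σ`
on `H ^ (2 r - 2)(𝒵_s)` are not of the form `n + i / a + j / b` (`n ∈ ℤ`, `0 < i < a`, `0 < j < b`), for
some embedding `τ` for each eigenvalue. Then:

(1) The order of the pole for `𝒳 × 𝒵` at `s = r + dim U` is the sum of the orders of the poles for
`𝒵` in codimensions `r`, `r - 1` (`ρ(𝒳)` times) and `r - 2`, and the space of cycle classes of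
codimension `r` on `𝒳 × 𝒵`, with rational coefficients, is isomorphic to the direct sum of the
corresponding spaces for `𝒵`.

(2) If this holds for all `r` (for example if `𝒵_s` is ordinary, or has slopes in `(1 / 2) ℤ` or
with denominators prime to `a` or to `b`, for coprime `a` and `b`), then the conjecture that the rank
is the order of the pole holds for `𝒳 × 𝒵` in all codimensions **if and only if** it holds for `𝒵` in
all codimensions.

So for example the conjecture holds for `𝒳 × 𝒵` for all surfaces `𝒵` over `K` for which it holds and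
which have good reduction with integral slopes at one closed point. The slopes of `𝒳_s` are computed
here from the numbers of points, by Dwork's method; the surfaces `𝒳` have unbounded geometric
genus. -/
theorem result {κ : Type} [Field κ] [Finite κ] {p : ℕ} [Fact p.Prime] [CharP κ p] {a b : ℕ}
    {f : κ[X][X]} (hf : HasLeadingExponents a b f) (ha : a ∣ p - 1) (hb : b ∣ p - 1)
    {Γ : Type} [Group Γ] {q n : ℕ} {N : Subgroup Γ} {χ : Γ →* ℂˣ} {φ σ : Γ}
    (hs : IsPlace κ q n N χ φ σ)
    {V : Type} [AddCommGroup V] [Module ℂ V] [FiniteDimensional ℂ V]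
    {ρV : Representation ℂ Γ V} (hV : IsCohomology p f (ρV σ))
    {H : Type} [AddCommGroup H] [Module ℂ H] [FiniteDimensional ℂ H] [Module ℚ H]
    {ρH : Representation ℂ Γ H} {i : V →ₗ[ℂ] H} {m : ℕ} {w ws : Fin m → H} {j : Fin m → ℤ}
    {BX : LinearMap.BilinForm ℂ H} (hX : IsSurface χ ρV ρH i w ws j BX)
    {Z : Type} [AddCommGroup Z] [Module ℂ Z] [FiniteDimensional ℂ Z] [Module ℚ Z]
    {ρZ : Representation ℂ Γ Z} {A : ℤ → Submodule ℚ Z} {C : ℤ → Submodule ℚ (H ⊗[ℂ] Z)}
    (hC : AreCycleClasses χ ρH ρZ w ws j BX A C) :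
    (∀ r : ℤ, GoodSlopes κ p a b (ρZ σ) r →
      order (ρH.tprod ρZ) N φ q r = ∑ k, order ρZ N φ q (r - j k) ∧
      Nonempty (C r ≃ₗ[ℚ] ((k : Fin m) → A (r - j k)))) ∧
    ((∀ r : ℤ, GoodSlopes κ p a b (ρZ σ) r) →
      (∀ β, Module.End.HasEigenvalue (ρZ σ) β → 1 ≤ ‖β‖) → (∀ r < 0, A r = ⊥) →
      ((∀ r, Module.rank ℚ (C r) = order (ρH.tprod ρZ) N φ q r) ↔
        ∀ r, Module.rank ℚ (A r) = order ρZ N φ q r)) := by
  classical
  have : Fintype κ := Fintype.ofFinite κ
  have hcard : Nat.card κ = Fintype.card κ := Nat.card_eq_fintype_card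
  have hD : Pool.Agent.U407.NP.Dg a b f :=
    ⟨hf.pos_a, hf.pos_b, hf.coeff_x, hf.coeff_t, hf.rest⟩
  have htr : ∀ m, m ≠ 0 → LinearMap.trace ℂ V ((ρV σ) ^ m) =
      (Pool.Agent.N867.AS.Trans.Npts p f (Fintype.card κ ^ m) : ℂ) -
        ((Fintype.card κ : ℂ) ^ m) ^ 2 := by
    intro m hm
    rw [← hcard]
    exact hV.trace m hm
  have hpure : ∀ α, Module.End.HasEigenvalue (ρV σ) α → ‖α‖ = (Fintype.card κ : ℝ) := by
    rw [← hcard]
    exact hV.pure
  have hqn : ((q : ℂ)) ^ n = (Fintype.card κ : ℂ) := by
    rw [← hcard, hs.residue, Nat.cast_pow]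
  have hn : n ≠ 0 := by
    rintro rfl
    have h1 := hs.residue
    rw [pow_zero, hcard] at h1
    exact absurd h1 (Fintype.one_lt_card (α := κ)).ne'
  have hq : (q : ℂ) ≠ 0 := by
    intro h0
    rw [h0, zero_pow hn] at hqn
    exact (Nat.cast_ne_zero.2 (Fintype.card_ne_zero (α := κ))) hqn.symm
  have hχσ : ((χ σ : ℂˣ) : ℂ) = (Fintype.card κ : ℂ) := by
    obtain ⟨ν, hν, h1⟩ := hs.place
    rw [h1, map_mul, map_pow, hs.geometric ν hν, mul_one, Units.val_pow_eq_pow_val,
      hs.frobenius, hqn]
  -- no eigenvalue
  have hno : ∀ r : ℤ, GoodSlopes κ p a b (ρZ σ) r →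
      ¬ Module.End.HasEigenvalue (ρV.tprod ρZ σ) ((Fintype.card κ : ℂ) ^ r) := by
    intro r hgood h
    unfold GoodSlopes at hgood
    rw [hcard] at hgood
    rw [Representation.tprod_apply] at h
    obtain ⟨α, β, hα, hβ, hαβ⟩ := Pool.Agent.U407.NP.eigenvalue_tensor _ _ h
    refine Pool.Agent.U407.NP.no_tate hD ha hb htr hpure r hgood 1 one_ne_zero α β hα hβ ?_
    rw [pow_one, ← hαβ, Nat.cast_one, one_mul]
  have h1 : ∀ r : ℤ, GoodSlopes κ p a b (ρZ σ) r →
      order (ρH.tprod ρZ) N φ q r = ∑ k, order ρZ N φ q (r - j k) := by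
    intro r hgood
    refine Pool.Agent.U407.NP.finrank_pole hq hs.geometric hs.frobenius hX.equivariant
      hX.algebraic hX.span hX.dual hX.orthogonal r ?_
    refine Pool.Agent.U407.NP.no_pole hs.normal hs.place ?_
    rw [← zpow_natCast, ← zpow_mul, mul_comm r, zpow_mul, zpow_natCast, hqn]
    exact hno r hgood
  have h2 : ∀ r : ℤ, GoodSlopes κ p a b (ρZ σ) r →
      Nonempty (C r ≃ₗ[ℚ] ((k : Fin m) → A (r - j k))) := by
    intro r hgood
    refine Pool.Agent.U407.NP.cycles_equiv hX.injective hX.equivariant hX.algebraic hX.span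
      hX.dual hX.orthogonal (hno r hgood) (fun c hc => ?_) (hC.product r) (hC.push r)
    rw [hC.galois r c hc, hχσ]
  refine ⟨fun r hgood => ⟨h1 r hgood, h2 r hgood⟩, fun hgood hZ hA => ?_⟩
  obtain ⟨k₀, hk₀, hk⟩ := hX.codimensions
  refine Pool.Agent.U407.NP.main_iff k₀ hk₀ hk (fun r => h2 r (hgood r)) _ _
    (fun r => h1 r (hgood r)) fun r hr => ⟨hA r hr, ?_⟩
  have h3 : Pool.Agent.U407.NP.poleSpace ρZ N φ ((q : ℂ) ^ r) = ⊥ := by
    refine Pool.Agent.U407.NP.no_pole hs.normal hs.place fun hev => ?_
    have h4 := hZ _ hev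
    rw [← zpow_natCast, ← zpow_mul, mul_comm r, zpow_mul, zpow_natCast, hqn, norm_zpow,
      Complex.norm_natCast] at h4
    have h5 : (1 : ℝ) < (Fintype.card κ : ℝ) := by
      exact_mod_cast Fintype.one_lt_card (α := κ)
    exact absurd h4 (not_le.2 (zpow_lt_one_of_neg₀ h5 hr))
  change finrank ℂ (Pool.Agent.U407.NP.poleSpace ρZ N φ ((q : ℂ) ^ r)) = 0
  rw [h3, finrank_bot]

end Pool.Agent.Results.MP_223b32_ag.AnalyticOrdersOfProducts
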