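import Pool.Agent.U926.FE.Const
import Pool.Agent.N876.UV.Crit
import Pool.Agent.N876.FL.Crit

/-!
# The orders of the poles of the L-functions of families of products of cyclic coverings

Let `κ` be a finite field with `q = c ^ f` elements and `k` the function field of a geometrically
irreducible variety `S` over `κ` of any dimension `D ≥ 1` (`k` is any finitely generated field of
characteristic `c` with the field of constants `κ`, and `D = dim_a(k)`). Let `V_1, …, V_r` be smooth
projective varieties over `k`, of any dimensions `n_i ≥ 1`, which are models of cyclic coverings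

  `w ^ N_i = ∏ l_{i,k} (x) ^ a_{i,k}`

of the projective spaces over `k`, branched along hyperplanes `l_{i,k} = 0` with coefficients **in `k`**,
with exponents prime to `N_i` and `N_i ∣ q - 1`. So these varieties are not constant and not isotrivial in
general: this is a family of coverings with moving branch hyperplanes, over a base `S` of any dimension. Let
`Z` be **any** smooth projective variety over `k` of level at most `λ`, for example of dimension at most `λ`.
After shrinking `S` all this is given by smooth projective families over `S`.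

For a closed point `v` of `S` (`P` is the set of these points, `res v` the residue field, `dg v` its degree
over `κ`) the Frobenius eigenvalues of the fibres of `V_i` are the powers `q_v ^ codim` for a basis of the
invariants of the covering group, which consists of classes of algebraic cycles over `k`, and numbers
`α v e` of absolute value `q_v ^ (n_i / 2)` on the part without invariants, where the generator of the
covering group acts by `exp (2 π i ε / N_i)`; the trace formula of Grothendieck and Lefschetz for the
compositions of the Frobenius and the covering transformations is the hypothesis `lefschetz`. The eigenvalues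
`β v e` on the cohomology of degree `deg v e` of the fibre of `Z` have the absolute value
`q_v ^ (deg / 2)`, and `q_v ^ (-(deg - λ)) β` is an algebraic integer. The Euler factors of
`L_{2 w}(s) = L(S, H ^ {2 w}(V_1 × ⋯ × V_r × Z), s)` are those given by the formula of Künneth. By
Grothendieck these functions, and the parts `L_{2 w, j}` of them where the covering groups act by fixed
characters `j = (j_1, …, j_r)`, are rational functions of `q ^ (-s)`; this is used only for the parts with
`j ≠ 0` (`IsRational`).

For an integer `j` let `weight V j` be the sum of the fractional parts of `j a_k / N`, replaced by its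
mean over `j, c j, …, c ^ (f - 1) j`. The condition `IsSmall` says: for every nonempty set `I` of
indices and all `j_i` not divisible by `N_i` (`i ∈ I`) there is a `u` prime to `N` with

  `∑_{i ∈ I} weight V_i (u j_i) + λ / 2 + D < ∑_{i ∈ I} (n_i / 2 + 1)`.

For example it is true if the `N_i` are different prime numbers, `c ≡ 1` modulo all `N_i`,
`∑_k a_{i,k} = N_i` and **`n_i > λ + 2 D`** for all `i` (part 4).

**Theorem.** Assume `IsSmall`. Then the functions `L_{2 w, j}` for `j ≠ 0` have neither a zero nor a pole at
`s = w + D`. Hence, for `V = V_1 × ⋯ × V_r`: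

* the orders of the poles of `L(H ^ {2 w}(V × Z), s)` at `s = w + D` are, for all `w`, the numbers
  `∑_k r_{w - codim k}`, the sum over the products `k` of the algebraic classes of `V`, **if and only
  if** the orders of the poles of `L(H ^ {2 w}(Z), s)` at `s = w + D` are the numbers `r_w`, for all `w`. So
  **the analytic Tate conjecture for `V × Z` is equivalent to the one for `Z`**. (By
  `MP_950c68_ag.ProductsOfSmallLevel`, under the same condition the Tate classes on `V × Z` are exactly the
  linear combinations of products of classes of algebraic cycles on `V` with Tate classes on `Z`, so the rank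
  of `A ^ w(V × Z)` is the sum of the ranks of `A ^ {w - codim k}(Z)`.)
* if `Z` is a constant variety, then the order of the pole is the sum over `k` of the multiplicities of the
  eigenvalue `q ^ {w - codim k}` of the Frobenius on `H ^ {2 (w - codim k)}(Z)`, without any further
  hypothesis. So the analytic Tate conjecture is true for `V × Z` if the pole conjecture is true for the
  variety `Z` over the finite field `κ`; for instance (`Z` a point) **it is true for `V`**, in all
  codimensions.

The known results on poles for function fields (`MP_af4e75_ag.ConstantPoles` among the starting results) are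
on constant varieties, where the L-function is a product of values of the zeta function of the base; the
results on coverings of projective spaces are on Tate classes, where one closed point of the base suffices.

The proof: the Euler product `∏_v det (1 - T ^ {deg v} Frob_v)⁻¹` over all closed points of `S`, for the
part with the characters `j ≠ 0`, has coefficients which are algebraic numbers, and by the theorem of
Stickelberger on Gauss sums there is an embedding of the algebraic numbers into an algebraic closure of
the field of `c`-adic numbers such that all the eigenvalues of `Frob_v`, for all `v`, have valuations larger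
than `(w + D) v(q_v)`: the local estimates are uniform in `v`, as the estimate depends only on
the exponents and not on the hyperplanes. So the Euler product converges `c`-adically in a disk which
contains `q ^ {-(w + D)}`, and has no zero there. As it is a rational function, its order there is
zero. The point `s = w + D` is the edge of the region of absolute convergence in the complex numbers.

Purity (Deligne), the trace formula for the fibres (Grothendieck), the estimate of Lang and Weil for the
base and the rationality (Grothendieck) are hypotheses.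

The `c`-adic part (`Pool/Agent/N876/UV`: `part_order`, `tot_order`) is by helper876, unfinished and not handed
in before; the complex analysis and the assembly (`Pool/Agent/U926/FE`) are by helper926. The estimates of
sums over hyperplane arrangements by Gauss sums are by helper528 and helpers 800, 883, 135, 563, 271, 540,
400, 999, 782, 605, 346, those on Euler products of zeta functions of varieties (`TH117/BL/LW`) by helper117.
-/

set_option autoImplicit false

open Finset Polynomial

namespace Pool.Agent.Results.MP_223b32_ag.FamiliesOfCoverings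

open Pool.Agent.U926.FE (IsBase HasPole)

section family

variable {κ : Type} [Field κ] {P : Type} {res : P → Type} [∀ v, Field (res v)]

/-- A family of cyclic coverings `w ^ N = ∏ l_k (x) ^ a_k` of the projective space of dimension `n` over a
variety with the closed points `v ∈ P` with the residue fields `res v`: `l v k t` is the value at `v`
of the coefficient `t` of the linear form `l_k`. The covering group is generated by the multiplication of
`w` by the root of unity `z`. -/
structure Family (κ : Type) [Field κ] {P : Type} (res : P → Type) [∀ v, Field (res v)] : Type where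
  N : ℕ
  n : ℕ
  s : ℕ
  l : ∀ v, Fin s → Fin (n + 1) → res v
  a : Fin s → ℕ
  z : κ

/-- `z` has order `N ≥ 2`, the exponents are prime to `N` and their sum is divisible by `N`. -/
structure Family.IsAdmissible (X : Family κ res) : Prop where
  two_le : 2 ≤ X.N
  root : IsPrimitiveRoot X.z X.N
  coprime : ∀ k, (X.a k).Coprime X.N
  dvd : X.N ∣ ∑ k, X.a k

/-- The value of the form `∏ l_k ^ a_k` of the fibre at `v` at a vector with coordinates in `L`. -/
def Family.value (X : Family κ res) (v : P) (L : Type) [Field L] [Algebra (res v) L]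
    (x : Fin (X.n + 1) → L) : L :=
  ∏ k, (∑ t, algebraMap (res v) L (X.l v k t) * x t) ^ X.a k

/-- The number of vectors over `L` where the form is not zero. -/
noncomputable def Family.openCount (X : Family κ res) (v : P) (L : Type) [Field L]
    [Algebra (res v) L] : ℕ :=
  Set.ncard {x : Fin (X.n + 1) → L | X.value v L x ≠ 0}

/-- The number of vectors over `L` where the form is not zero and its power with the exponent
`(|L| - 1) / N` is `z ^ i`. -/
noncomputable def Family.fixCount [∀ v, Algebra κ (res v)] (X : Family κ res) (v : P) (L : Type)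
    [Field L] [Fintype L] [Algebra (res v) L] (i : ℕ) : ℕ :=
  Set.ncard {x : Fin (X.n + 1) → L | X.value v L x ≠ 0 ∧
    (X.value v L x) ^ ((Fintype.card L - 1) / X.N) =
      algebraMap (res v) L (algebraMap κ (res v) X.z) ^ i}

/-- The Frobenius eigenvalues on the cohomology of the fibres of a smooth projective model of the family:
the classes `k ∈ K` of algebraic cycles of codimension `codim k` (with `unit` the only one of codimension
zero), and the part without invariants, in degree `n`, with the eigenvalues `α v e` of the Frobenius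
at `v`, where the generator of the covering group has the eigenvalue `exp (2 π i ε / N)`. The trace of the
composition of the power of the Frobenius given by `L` and of the power `i` of the generator is up to the sign
the difference of the number of fixed points over the open set `∏ l_k ≠ 0` of projective space (`N`
points over each point where the form has the power residue symbol `z ^ i`) and of the number of the
points of this open set. -/
structure Cohomology [∀ v, Fintype (res v)] [∀ v, Algebra κ (res v)] (X : Family κ res) :
    Type 1 where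
  K : Type
  [fintypeK : Fintype K]
  codim : K → ℕ
  unit : K
  codim_eq_zero : ∀ k, codim k = 0 ↔ k = unit
  J : P → Type
  [fintypeJ : ∀ v, Fintype (J v)]
  α : ∀ v, J v → ℂ
  ε : ∀ v, J v → ℕ
  invariants : ∀ v e, ¬ X.N ∣ ε v e
  bounded : ∃ b : ℕ, ∀ v, Fintype.card (J v) ≤ b
  pure : ∀ v e, ‖α v e‖ ^ 2 = (Fintype.card (res v) : ℝ) ^ X.n
  lefschetz : ∀ (v : P) (L : Type) [Field L] [Fintype L] [Algebra (res v) L] (i : ℕ),
    ((Fintype.card L : ℂ) - 1) * ((-1) ^ X.n * ∑ e, α v e ^ Module.finrank (res v) L *
        Complex.exp (2 * Real.pi * Complex.I / X.N) ^ (ε v e * i)) =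
      (X.N : ℂ) * (X.fixCount v L i : ℂ) - (X.openCount v L : ℂ)

attribute [instance] Cohomology.fintypeK Cohomology.fintypeJ

/-- The mean over `j, c j, …, c ^ (f - 1) j` of the sum of the fractional parts of `j a_k / N`. -/
def Family.weight (X : Family κ res) (c f j : ℕ) : ℚ :=
  (∑ k, ∑ t ∈ range f, (((j * X.a k * c ^ t) % X.N : ℕ) : ℚ)) / (f * X.N)

/-- The condition on the exponents. -/
def IsSmall {ι : Type} (X : ι → Family κ res) (c f N lam D : ℕ) : Prop :=
  ∀ I : Finset ι, I.Nonempty → ∀ j : ι → ℕ, (∀ i ∈ I, ¬ (X i).N ∣ j i) →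
    ∃ u : ℕ, u.Coprime N ∧
      ∑ i ∈ I, (X i).weight c f (u * j i) + (lam : ℚ) / 2 + D < ∑ i ∈ I, (((X i).n : ℚ) / 2 + 1)

/-- The Frobenius eigenvalues on the cohomology of the fibres of a smooth projective family of level at
most `lam`: `β v e` is an eigenvalue of the Frobenius at `v` on the cohomology of degree `deg v e`. -/
structure Fibres {P : Type} (res : P → Type) [∀ v, Fintype (res v)] (lam : ℕ) : Type 1 where
  J : P → Type
  [fintypeJ : ∀ v, Fintype (J v)]
  deg : ∀ v, J v → ℕ
  β : ∀ v, J v → ℂ
  bounded : ∃ b : ℕ, ∀ v, Fintype.card (J v) ≤ b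
  pure : ∀ v e, ‖β v e‖ ^ 2 = (Fintype.card (res v) : ℝ) ^ deg v e
  level : ∀ v e, IsIntegral ℤ (β v e / (Fintype.card (res v) : ℂ) ^ (deg v e - lam))

attribute [instance] Fibres.fintypeJ

end family

/-! ### L-functions -/

open Classical in
/-- The product of the `1 - c_e T ^ d` over the `e` with the property `p`. -/
noncomputable def factor {J : Type} [Fintype J] (p : J → Prop) (c : J → ℂ) (d : ℕ) : ℂ[X] :=
  ∏ e ∈ univ.filter p, (1 - C (c e) * X ^ d)

/-- The product over all `v` of the inverse values of the polynomials `p v` at `q ^ (-s)`. -/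
noncomputable def LFunction {P : Type} (q : ℕ) (p : P → ℂ[X]) (s : ℂ) : ℂ :=
  ∏' v, ((p v).eval ((q : ℂ) ^ (-s)))⁻¹

/-- The formal product of the `p v (T)⁻¹` is equal to the rational function `B / A`. -/
def IsRational {P : Type} (p : P → ℂ[X]) : Prop :=
  ∃ A B : ℂ[X], A.coeff 0 = 1 ∧ B.coeff 0 = 1 ∧ ∀ m : ℕ, ∃ s : Finset P, ∀ s' : Finset P, s ⊆ s' →
    (X : ℂ[X]) ^ m ∣ B * ∏ v ∈ s', p v - A

section product

variable {κ : Type} [Field κ] {P : Type} (dg : P → ℕ) {res : P → Type} [∀ v, Field (res v)]
  [∀ v, Fintype (res v)] [∀ v, Algebra κ (res v)] {ι : Type} [Fintype ι] [DecidableEq ι]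
  {X : ι → Family κ res} (H : ∀ i, Cohomology (X i)) {lam : ℕ} (Z : Fibres res lam)

/-- The indices of the eigenvalues of the Frobenius at `v` on the cohomology of the product. -/
abbrev Index (v : P) : Type := (∀ i, (H i).K ⊕ (H i).J v) × Z.J v

/-- The degree of the cohomology. -/
def degree {v : P} (E : Index H Z v) : ℕ :=
  ∑ i, Sum.elim (fun k => 2 * (H i).codim k) (fun _ => (X i).n) (E.1 i) + Z.deg v E.2

/-- The eigenvalue of the Frobenius. -/
noncomputable def eigenvalue {v : P} (E : Index H Z v) : ℂ :=
  (∏ i, Sum.elim (fun k => (Fintype.card (res v) : ℂ) ^ (H i).codim k) ((H i).α v) (E.1 i)) *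
    Z.β v E.2

/-- The exponent of the action of the covering group of `X i`. -/
def exponent {v : P} (E : Index H Z v) (i : ι) : ℕ := Sum.elim (fun _ => 0) ((H i).ε v) (E.1 i)

/-- The Euler factor of the cohomology of degree `m` of the product. -/
noncomputable def eulerFactor (m : ℕ) (v : P) : ℂ[X] :=
  factor (fun E : Index H Z v => degree H Z E = m) (eigenvalue H Z) (dg v)

/-- The Euler factor of the part of the cohomology of degree `m` of the product with the characters
`j i` of the covering groups. -/
noncomputable def isotypicFactor (m : ℕ) (j : ι → ℕ) (v : P) : ℂ[X] :=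
  factor (fun E : Index H Z v => degree H Z E = m ∧
    ∀ i, exponent H Z E i ≡ j i [MOD (X i).N]) (eigenvalue H Z) (dg v)

/-- The Euler factor of the cohomology of degree `m` of the fibres of `Z`. -/
noncomputable def fibreFactor (m : ℕ) (v : P) : ℂ[X] :=
  factor (fun e : Z.J v => Z.deg v e = m) (Z.β v) (dg v)

/-- The codimension of a product of classes. -/
def codimension (k : ∀ i, (H i).K) : ℕ := ∑ i, (H i).codim (k i)

/-- Grothendieck's theorem for the parts with nontrivial characters. -/
def Rationality : Prop :=
  ∀ (m : ℕ) (j : ι → ℕ), (∃ i, ¬ (X i).N ∣ j i) → IsRational (isotypicFactor dg H Z m j)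

end product

/-- A constant family. -/
def Fibres.constant {κ : Type} [Field κ] [Fintype κ] {P : Type} {dg : P → ℕ} {res : P → Type}
    [∀ v, Fintype (res v)] (hres : ∀ v, Fintype.card (res v) = Fintype.card κ ^ dg v) {lam : ℕ}
    {J : Type} [Fintype J] (deg : J → ℕ) (γ : J → ℂ)
    (pure : ∀ e, ‖γ e‖ ^ 2 = (Fintype.card κ : ℝ) ^ deg e)
    (level : ∀ e, IsIntegral ℤ (γ e / (Fintype.card κ : ℂ) ^ (deg e - lam))) : Fibres res lam where
  J := fun _ => J
  deg := fun _ => deg
  β := fun v e => γ e ^ dg v
  bounded := ⟨Fintype.card J, fun _ => le_rfl⟩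
  pure := fun v e => by
    rw [norm_pow, ← pow_mul, mul_comm, pow_mul, pure e, hres v, ← pow_mul]
    push_cast
    rw [← pow_mul, mul_comm]
  level := fun v e => by
    have h1 : γ e ^ dg v / (Fintype.card (res v) : ℂ) ^ (deg e - lam) =
        (γ e / (Fintype.card κ : ℂ) ^ (deg e - lam)) ^ dg v := by
      rw [hres v, div_pow, ← pow_mul]
      push_cast
      rw [← pow_mul, mul_comm]
    rw [h1]
    exact (level e).pow _

/-- The theorem on the orders of the poles, for all data over the base. -/
def PoleTheorem {κ : Type} [Field κ] [Fintype κ] {P : Type} (dg : P → ℕ) (D : ℕ) {res : P → Type}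
    [∀ v, Field (res v)] [∀ v, Fintype (res v)] [∀ v, Algebra κ (res v)] {ι : Type} [Fintype ι]
    [DecidableEq ι] (X : ι → Family κ res) (lam : ℕ) : Prop :=
  ∀ (H : ∀ i, Cohomology (X i)),
    (∀ Z : Fibres res lam, Rationality dg H Z →
      -- the Euler product converges
      (∀ (w : ℕ) (s : ℝ), ((w + D : ℕ) : ℝ) < s → Multipliable fun v =>
        ((eulerFactor dg H Z (2 * w) v).eval ((Fintype.card κ : ℂ) ^ (-(s : ℂ))))⁻¹) ∧
      -- the parts with nontrivial characters have neither a zero nor a pole
      (∀ (w : ℕ) (j : ι → ℕ), (∃ i, ¬ (X i).N ∣ j i) →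
        HasPole (LFunction (Fintype.card κ) (isotypicFactor dg H Z (2 * w) j))
          ((w + D : ℕ) : ℝ) 0) ∧
      -- the orders of the poles for the product and for `Z`
      ∀ r : ℕ → ℤ,
        (∀ w : ℕ, HasPole (LFunction (Fintype.card κ) (eulerFactor dg H Z (2 * w)))
          ((w + D : ℕ) : ℝ)
          (∑ k with codimension H k ≤ w, r (w - codimension H k))) ↔
        ∀ w : ℕ, HasPole (LFunction (Fintype.card κ) (fibreFactor dg Z (2 * w)))
          ((w + D : ℕ) : ℝ) (r w)) ∧
    -- constant families
    ∀ (hres : ∀ v, Fintype.card (res v) = Fintype.card κ ^ dg v) {J : Type} [Fintype J]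
      (deg : J → ℕ) (γ : J → ℂ) (pure : ∀ e, ‖γ e‖ ^ 2 = (Fintype.card κ : ℝ) ^ deg e)
      (level : ∀ e, IsIntegral ℤ (γ e / (Fintype.card κ : ℂ) ^ (deg e - lam))),
      Rationality dg H (Fibres.constant hres deg γ pure level) → ∀ w : ℕ,
        HasPole (LFunction (Fintype.card κ)
          (eulerFactor dg H (Fibres.constant hres deg γ pure level) (2 * w))) ((w + D : ℕ) : ℝ)
          (∑ k with codimension H k ≤ w, (Set.ncard {e | deg e = 2 * (w - codimension H k) ∧
            γ e = (Fintype.card κ : ℂ) ^ (w - codimension H k)} : ℤ))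

theorem isRat_of {P : Type} {p : P → ℂ[X]} (h : IsRational p) : Pool.Agent.N876.UV.IsRat p := by
  obtain ⟨A, B, hA, hB, hAB⟩ := h
  have hA0 : A ≠ 0 := by
    rintro rfl
    rw [coeff_zero] at hA
    exact zero_ne_one hA
  have hB0 : B ≠ 0 := by
    rintro rfl
    rw [coeff_zero] at hB
    exact zero_ne_one hB
  have hAc : PowerSeries.constantCoeff (A : PowerSeries ℂ) ≠ 0 := by
    rw [← PowerSeries.coeff_zero_eq_constantCoeff_apply, Polynomial.coeff_coe, hA]
    exact one_ne_zero
  refine ⟨(B : PowerSeries ℂ) * (A : PowerSeries ℂ)⁻¹, B, A, ?_, hB0, hA0, ?_⟩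
  · intro m
    obtain ⟨s, hs⟩ := hAB m
    refine ⟨s, fun s' hs' => ?_⟩
    obtain ⟨Q, hQ⟩ := hs s' hs'
    have h1 : (B : PowerSeries ℂ) * ∏ v ∈ s', (p v : PowerSeries ℂ) - (A : PowerSeries ℂ) =
        PowerSeries.X ^ m * (Q : PowerSeries ℂ) := by
      have h2 := congrArg (Polynomial.coeToPowerSeries.ringHom (R := ℂ)) hQ
      rw [map_sub, map_mul, map_mul, map_prod, map_pow] at h2
      simp only [Polynomial.coeToPowerSeries.ringHom_apply, Polynomial.coe_X] at h2
      exact h2
    refine ⟨(A : PowerSeries ℂ)⁻¹ * Q, ?_⟩
    have h2 : (B : PowerSeries ℂ) * (A : PowerSeries ℂ)⁻¹ * ∏ v ∈ s', (p v : PowerSeries ℂ) - 1 =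
        (A : PowerSeries ℂ)⁻¹ * ((B : PowerSeries ℂ) * ∏ v ∈ s', (p v : PowerSeries ℂ) -
          (A : PowerSeries ℂ)) := by
      rw [mul_sub, PowerSeries.inv_mul_cancel _ hAc]
      ring
    rw [h2, h1]
    ring
  · rw [mul_comm (B : PowerSeries ℂ), ← mul_assoc, PowerSeries.mul_inv_cancel _ hAc, one_mul]

/-- **The orders of the poles of the L-functions of families of products of cyclic coverings branched
along hyperplanes and of arbitrary families of small level.** -/
theorem result (c : ℕ) [Fact c.Prime] (κ : Type) [Field κ] [Fintype κ] [CharP κ c] (f : ℕ)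
    (hf : Fintype.card κ = c ^ f) {P : Type} (dg : P → ℕ) (D : ℕ)
    (hbase : IsBase (Fintype.card κ) D dg) (res : P → Type) [∀ v, Field (res v)]
    [∀ v, Fintype (res v)] [∀ v, Algebra κ (res v)] (hres : ∀ v, Module.finrank κ (res v) = dg v)
    {ι : Type} [Fintype ι] [DecidableEq ι] (X : ι → Family κ res) (hX : ∀ i, (X i).IsAdmissible)
    (lam : ℕ) :
    -- 1. the theorem on the orders of the poles
    (∀ N : ℕ, 0 < N → (∀ i, (X i).N ∣ N) → IsSmall X c f N lam D → PoleTheorem dg D X lam) ∧
    -- 2. pairwise coprime degrees: the proper divisors are sufficient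
    ((∀ i i', i ≠ i' → ((X i).N).Coprime (X i').N) →
      (∀ i g, g ∣ (X i).N → g < (X i).N →
        (X i).weight c f g + (lam : ℚ) / 2 + D < ((X i).n : ℚ) / 2 + 1) →
      IsSmall X c f (∏ i, (X i).N) lam D) ∧
    -- 3. `c ≡ 1`
    (∀ i, c % (X i).N = 1 → ∀ j,
      (X i).weight c f j = ((∑ k, (j * (X i).a k) % (X i).N : ℕ) : ℚ) / (X i).N) ∧
    -- 4. different prime degrees, `c ≡ 1`
    ((∀ i, ((X i).N).Prime) → (∀ i i', i ≠ i' → (X i).N ≠ (X i').N) →
      (∀ i, c % (X i).N = 1) → (∀ i, ∑ k, (X i).a k = (X i).N) → (∀ i, lam + 2 * D < (X i).n) →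
      IsSmall X c f (∏ i, (X i).N) lam D) := by
  have hf0 : 0 < f := by
    rcases Nat.eq_zero_or_pos f with h | h
    · rw [h, pow_zero] at hf
      have := Fintype.one_lt_card (α := κ)
      omega
    · exact h
  have hq1 : 1 < Fintype.card κ := Fintype.one_lt_card
  have hcard : ∀ v, Fintype.card (res v) = Fintype.card κ ^ dg v := by
    intro v
    rw [← hres v]
    exact Module.card_eq_pow_finrank
  have hN0 : ∀ i, 0 < (X i).N := fun i => by have := (hX i).two_le; omega
  have h2 : ((∀ i i', i ≠ i' → ((X i).N).Coprime (X i').N) →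
      (∀ i g, g ∣ (X i).N → g < (X i).N →
        (X i).weight c f g + (lam : ℚ) / 2 + D < ((X i).n : ℚ) / 2 + 1) →
      IsSmall X c f (∏ i, (X i).N) lam D) := by
    intro hco hsm I hI j hj
    have h1 : ∀ i, ∃ u : ℕ, u.Coprime (X i).N ∧ u * j i ≡ (j i).gcd (X i).N [MOD (X i).N] :=
      fun i => Pool.Agent.N876.FL.exists_gcd_unit (hN0 i) (j i)
    choose u hu hu2 using h1
    obtain ⟨v, hv1, hv2⟩ := Pool.Agent.N876.TC.exists_crt (d := fun i => (X i).N) hN0 hco u hu
    refine ⟨v, hv1, ?_⟩
    have h2 : ∑ i ∈ I, (X i).weight c f (v * j i) + ∑ i ∈ I, ((lam : ℚ) / 2 + D) <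
        ∑ i ∈ I, (((X i).n : ℚ) / 2 + 1) := by
      rw [← sum_add_distrib]
      refine Finset.sum_lt_sum_of_nonempty hI fun i hi => ?_
      rw [← add_assoc]
      refine lt_of_le_of_lt (le_of_eq ?_) (hsm i ((j i).gcd (X i).N) (Nat.gcd_dvd_right _ _)
        (Pool.Agent.N876.FL.gcd_proper (hN0 i) (hj i hi)))
      congr 2
      unfold Family.weight
      congr 1
      refine sum_congr rfl fun k _ => sum_congr rfl fun t _ => ?_
      have h2 : v * j i * (X i).a k * c ^ t ≡ (j i).gcd (X i).N * (X i).a k * c ^ t
          [MOD (X i).N] :=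
        ((((hv2 i).mul_right _).trans (hu2 i)).mul_right _).mul_right _
      rw [h2]
    refine lt_of_le_of_lt ?_ h2
    rw [sum_const, nsmul_eq_mul]
    have h3 : (1 : ℚ) ≤ I.card := by exact_mod_cast hI.card_pos
    have h4 : (0 : ℚ) ≤ (lam : ℚ) / 2 + D := by positivity
    nlinarith
  have h3 : ∀ i, c % (X i).N = 1 → ∀ j,
      (X i).weight c f j = ((∑ k, (j * (X i).a k) % (X i).N : ℕ) : ℚ) / (X i).N := by
    intro i hc j
    have hN := (hX i).two_le
    have hN' : ((X i).N : ℚ) ≠ 0 := by exact_mod_cast (by omega : (X i).N ≠ 0)
    have hf' : (f : ℚ) ≠ 0 := by exact_mod_cast hf0.ne'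
    unfold Family.weight
    have h1 : ∀ k, ∑ t ∈ range f, (((j * (X i).a k * c ^ t) % (X i).N : ℕ) : ℚ) =
        f * (((j * (X i).a k) % (X i).N : ℕ) : ℚ) := by
      intro k
      have h2 : ∀ t ∈ range f, (((j * (X i).a k * c ^ t) % (X i).N : ℕ) : ℚ) =
          (((j * (X i).a k) % (X i).N : ℕ) : ℚ) := by
        intro t _
        have h3 : c ^ t ≡ 1 [MOD (X i).N] := by
          have h4 : c ≡ 1 [MOD (X i).N] := by
            show c % (X i).N = 1 % (X i).N
            rw [hc, Nat.mod_eq_of_lt (by omega)]
          simpa using h4.pow t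
        have h5 : j * (X i).a k * c ^ t ≡ j * (X i).a k [MOD (X i).N] := by
          have h6 := h3.mul_left (j * (X i).a k)
          rwa [mul_one] at h6
        rw [h5]
      rw [sum_congr rfl h2, sum_const, card_range, nsmul_eq_mul]
    rw [sum_congr rfl fun k _ => h1 k, ← mul_sum]
    push_cast
    rw [mul_div_mul_left _ _ hf']
  refine ⟨?_, h2, h3, ?_⟩
  · intro N hN hdN hsmall H
    have hlt : ∀ I : Finset ι, I.Nonempty → Pool.Agent.N876.UV.SmallI c f N (lam + 2 * D)
        (fun i => (X i).N) (fun i => (X i).n) (fun i => (X i).s) (fun i => (X i).a) I := by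
      intro I hI j hj
      obtain ⟨u, hu, hlt⟩ := hsmall I hI j hj
      refine ⟨u, hu, Pool.Agent.N876.UV.weight_conv' hf0 hN hdN I
        (fun i => ∑ k, ∑ t ∈ range f, (u * j i * (X i).a k * c ^ t) % (X i).N) ?_⟩
      have h1 : ∑ i ∈ I, (((∑ k, ∑ t ∈ range f, (u * j i * (X i).a k * c ^ t) % (X i).N : ℕ) : ℚ) /
          (f * (X i).N)) = ∑ i ∈ I, (X i).weight c f (u * j i) := by
        refine sum_congr rfl fun i _ => ?_
        unfold Family.weight
        push_cast
        rfl
      rw [h1]
      refine lt_of_le_of_lt (le_of_eq ?_) hlt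
      push_cast
      ring
    have hpart : ∀ Z : Fibres res lam, Rationality dg H Z → ∀ (w : ℕ) (j : ι → ℕ),
        (∃ i, ¬ (X i).N ∣ j i) →
        Pool.Agent.N876.UV.OrderAt (Pool.Agent.N876.UV.prt dg (fun v => Fintype.card (res v))
          (fun i => (X i).n) (fun i => (X i).N) (fun i => (H i).codim) (fun i => (H i).α)
          (fun i => (H i).ε) Z.deg Z.β (2 * w) j) (1 / (Fintype.card κ : ℂ) ^ (w + D)) 0 := by
      intro Z hZ w j hj
      classical
      have hne : (univ.filter fun i => ¬ (X i).N ∣ j i).Nonempty := by
        obtain ⟨i, hi⟩ := hj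
        exact ⟨i, mem_filter.2 ⟨mem_univ i, hi⟩⟩
      refine Pool.Agent.N876.UV.part_order (s := fun i => (X i).s) (a := fun i => (X i).a)
        (z := fun i => (X i).z) (D := lam) (e0 := 2 * D) (δ := lam + 2 * D) hf hN
        (fun i => (hX i).two_le) hdN (fun i => (hX i).coprime)
        (fun i => (hX i).root) hres (fun i v => (X i).l v) (fun i v => (H i).invariants v)
        (fun i v L _ _ _ t => (H i).lefschetz v L t) (fun v y => Z.level v y) rfl
        (hlt _ hne) (fun i => ?_) (by omega) one_pos (one_pow 1) (isRat_of (hZ (2 * w) j hj))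
      rw [mem_filter]
      simp
    have hbnd : ∀ Z : Fibres res lam, ∃ b : ℕ, (∀ i v, Fintype.card ((H i).J v) ≤ b) ∧
        ∀ v, Fintype.card (Z.J v) ≤ b := by
      intro Z
      obtain ⟨bZ, hbZ⟩ := Z.bounded
      have hb := fun i => (H i).bounded
      choose b hb using hb
      refine ⟨∑ i, b i + bZ, fun i v => ?_, fun v => ?_⟩
      · refine (hb i v).trans ?_
        have h1 : b i ≤ ∑ i, b i := single_le_sum (f := b) (fun i _ => Nat.zero_le _) (mem_univ i)
        omega
      · refine (hbZ v).trans ?_
        omega
    have horders : ∀ (Z : Fibres res lam) (hZ : Rationality dg H Z) (r : ℕ → ℤ),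
        (∀ w : ℕ, HasPole (LFunction (Fintype.card κ) (eulerFactor dg H Z (2 * w)))
          ((w + D : ℕ) : ℝ)
          (∑ k with codimension H k ≤ w, r (w - codimension H k))) ↔
        ∀ w : ℕ, HasPole (LFunction (Fintype.card κ) (fibreFactor dg Z (2 * w)))
          ((w + D : ℕ) : ℝ) (r w) := by
      intro Z hZ r
      obtain ⟨b, hbJ, hbY⟩ := hbnd Z
      have h1 := Pool.Agent.U926.FE.orders (Q := fun v => Fintype.card (res v))
        (n := fun i => (X i).n) (d := fun i => (X i).N) (codim := fun i => (H i).codim)
        (α := fun i => (H i).α) (ε := fun i => (H i).ε) (dY := Z.deg) (β := Z.β) hq1 hbase hcard hN0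
        (fun i => (H i).invariants) (fun i => (H i).pure) Z.pure hbJ hbY (hpart Z hZ)
        (fun i => (H i).unit) (fun i => (H i).codim_eq_zero) r
      have h2 : ∀ w : ℕ, (∑ k with codimension H k ≤ w, r (w - codimension H k)) =
          ∑ k ∈ Pool.Agent.N876.UV.fs (fun k : ∀ i, (H i).K => ∑ i, (H i).codim (k i) ≤ w),
            r (w - ∑ i, (H i).codim (k i)) := by
        intro w
        refine sum_congr ?_ fun k _ => rfl
        ext k
        rw [mem_filter, Pool.Agent.N876.UV.mem_fs]
        exact ⟨fun h => h.2, fun h => ⟨mem_univ k, h⟩⟩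
      simp only [h2]
      exact h1
    refine ⟨fun Z hZ => ⟨?_, ?_, horders Z hZ⟩, ?_⟩
    · intro w s hs
      obtain ⟨b, hbJ, hbY⟩ := hbnd Z
      refine Pool.Agent.U926.FE.multipliable_fac (J := fun v => Index H Z v)
        (pr := fun v E => degree H Z E = 2 * w) (β := fun v => eigenvalue H Z)
        (R0 := (Fintype.card κ : ℝ) ^ w) hq1 hbase
        (Pool.Agent.U926.FE.card_index (K := fun i => (H i).K) (J := fun i => (H i).J)
          (JY := Z.J) hbJ hbY) (by positivity) ?_ (Pool.Agent.U926.FE.qpow_lt hq1 hs)
      intro v E hE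
      refine Pool.Agent.U926.FE.norm_le_of_sq (hcard v) ?_
      have h1 := Pool.Agent.U926.FE.ee_norm (Q := fun v => Fintype.card (res v))
        (n := fun i => (X i).n) (codim := fun i => (H i).codim) (α := fun i => (H i).α)
        (dY := Z.deg) (β := Z.β) (fun i => (H i).pure) Z.pure E
      have h2 : Pool.Agent.N876.UV.dd (fun i => (X i).n) (fun i => (H i).codim) Z.deg E = 2 * w :=
        hE
      rw [h2] at h1
      exact h1
    · intro w j hj
      obtain ⟨b, hbJ, hbY⟩ := hbnd Z
      refine Pool.Agent.U926.FE.hasPole_zero (J := fun v => Index H Z v)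
        (pr := fun v E => degree H Z E = 2 * w ∧ ∀ i, exponent H Z E i ≡ j i [MOD (X i).N])
        (β := fun v => eigenvalue H Z) hq1 hbase
        (Pool.Agent.U926.FE.card_index (K := fun i => (H i).K) (J := fun i => (H i).J)
          (JY := Z.J) hbJ hbY) ?_ (hpart Z hZ w j hj)
      intro v E hE
      refine Pool.Agent.U926.FE.norm_le_of_sq (hcard v) ?_
      have h1 := Pool.Agent.U926.FE.ee_norm (Q := fun v => Fintype.card (res v))
        (n := fun i => (X i).n) (codim := fun i => (H i).codim) (α := fun i => (H i).α)
        (dY := Z.deg) (β := Z.β) (fun i => (H i).pure) Z.pure E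
      have h2 : Pool.Agent.N876.UV.dd (fun i => (X i).n) (fun i => (H i).codim) Z.deg E = 2 * w :=
        hE.1
      rw [h2] at h1
      exact h1
    · intro hres' J _ deg γ pure level hZ w
      have h1 := (horders _ hZ (fun w => (Set.ncard {e | deg e = 2 * w ∧
        γ e = (Fintype.card κ : ℂ) ^ w} : ℤ))).2 (fun w => by
          have h2 := Pool.Agent.U926.FE.const_order hq1 hbase (deg := deg) (γ := γ) pure w
          have h3 : ((Pool.Agent.N876.UV.fs (fun e => deg e = 2 * w ∧
              γ e = (Fintype.card κ : ℂ) ^ w)).card : ℤ) =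
              (Set.ncard {e | deg e = 2 * w ∧ γ e = (Fintype.card κ : ℂ) ^ w} : ℤ) := by
            rw [← Set.ncard_coe_finset]
            congr 2
            ext e
            rw [Finset.mem_coe, Pool.Agent.N876.UV.mem_fs]
            rfl
          rw [h3] at h2
          exact h2)
      exact h1 w
  · intro hp hne hc hsum hn
    refine h2 (fun i i' hii => (Nat.coprime_primes (hp i) (hp i')).2 (hne i i' hii)) ?_
    intro i g hg hlt
    have hg1 : g = 1 := by
      rcases (Nat.dvd_prime (hp i)).1 hg with h | h
      · exact h
      · omega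
    rw [h3 i (hc i), hg1]
    have h4 : (∑ k, (1 * (X i).a k) % (X i).N) ≤ (X i).N := by
      refine le_trans (sum_le_sum fun k _ => Nat.mod_le _ _) ?_
      simp only [one_mul]
      exact (hsum i).le
    have hN' : (0 : ℚ) < (X i).N := by exact_mod_cast hN0 i
    have h5 : (((∑ k, (1 * (X i).a k) % (X i).N : ℕ) : ℚ)) / (X i).N ≤ 1 := by
      rw [div_le_one hN']
      exact_mod_cast h4
    have h6 : ((lam : ℚ) + 2 * D) < (X i).n := by exact_mod_cast hn i
    linarith

end Pool.Agent.Results.MP_223b32_ag.FamiliesOfCoverings
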