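import Mathlib
import Pool.Agent.U309.ED.HSys3
import Pool.Agent.U309.ED.EMul

/-!
# The L-functions of random hypersurfaces at the edge point: the size of a pole of order `1 + e`

Let `X_c ⊂ ℙ^{2m+1}` be the hypersurface `F_c = ∑_j g_j h_j = 0` of degree `δ`, where the `g_j` are fixed forms with integer coefficients,
`deg g_j ≤ δ - 3`, and the `h_j` are the forms of degree `δ - deg g_j` with the coefficients `c`. (One form `g = 1`: all hypersurfaces of
degree `δ ≥ 3`. In general: the hypersurfaces of degree `δ` which contain the base locus `B : g_j = 0`.) Suppose that some member is smooth over `ℂ`.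
Let `L_c(s) = L(H^{2m}(X_c), s)`, the Euler product over the primes of good reduction; it converges for `Re s > s₀ = m + 1`.

Let `dim B ≤ m`, and let `e` be the order of the pole of the zeta function of `B` at `m + 1`, i.e. the number of the irreducible components
of `B` over `ℚ` of dimension `m`: `(s - s₀)^e exp(∑_p #B(𝔽_p) p^{-s})` has a nonzero limit as `s → s₀`, `Re s > s₀`. The components of `B` and the linear
section are `1 + e` algebraic cycles of codimension `m` on `X_c`, and a very general member has no other ones. So the conjecture predicts, for the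
general member, a pole of order `1 + e` of `L_c` at `s₀`: a finite nonzero limit of `(s - s₀)^{1+e} L_c(s)`.

**Theorem.**  For points `σ_H → s₀` with `(Re σ_H - s₀) log H → ∞` and every `τ > 0`, the proportion of the members `c`, `|c_k| ≤ H`, with
`|(σ_H - s₀)^{1+e} L_c(σ_H)| ≤ τ` converges to `Φ(τ)`. The distribution function `Φ` does not depend on the `σ_H`, is continuous and
strictly increasing on `(0, ∞)` with `0 < Φ < 1`, and both tails are double exponentially small:
`exp(-exp(C τ^B)) ≤ Φ(1/τ), 1 - Φ(τ) ≤ exp(-exp(c τ^A))`, with positive `A, B, c, C`.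

So outside a double exponentially small proportion of the members the L-function has, at the distance `(large)/log H` of `s₀`, exactly the size of
the predicted pole of order `1 + e`.

The Frobenius eigenvalues on `H^{2m}` are given by the point counts over all finite fields (`IsFrobenius`); they exist, with absolute value
`p^m`, by Deligne's theorem. Nothing about the continuation of the L-functions is assumed or proved.

New (`Pool/Agent/U309/ED`): second and fourth moments of the number of the points of a random member (four points impose independent conditions),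
large values of both signs with positive probability, and from them the support, the absence of atoms and the tails for the random Euler product.
-/

set_option autoImplicit false

open Filter Topology
open scoped LinearAlgebra.Projectivization

namespace Pool.Agent.Results.MP_223b32_ag.RandomHypersurfaces

/-- The exponent vectors of the monomials of degree `D` in `N + 1` variables. -/
abbrev Monomials (N D : ℕ) : Type := {ν : Fin (N + 1) → Fin (D + 1) // ∑ i, (ν i : ℕ) = D}

/-- The indices of the coefficients of forms `h_j` of degree `d_j` in `2m + 2` variables. -/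
abbrev Coeff {J : Type} (m : ℕ) (d : J → ℕ) : Type := Σ j : J, Monomials (2 * m + 1) (d j)

/-- The form `F_c = ∑_j g_j h_j`, where `h_j` is the form of degree `d_j` with the coefficients `c (j, ·)`. -/
noncomputable def member {J : Type} [Fintype J] {m : ℕ} {d : J → ℕ} (g : J → MvPolynomial (Fin (2 * m + 2)) ℤ) (c : Coeff m d → ℤ) :
    MvPolynomial (Fin (2 * m + 2)) ℤ :=
  ∑ j, g j * ∑ ν : Monomials (2 * m + 1) (d j), MvPolynomial.C (c ⟨j, ν⟩) * ∏ i, MvPolynomial.X i ^ (ν.1 i : ℕ)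

/-- The projective hypersurface `F = 0` has no singular point with coordinates in the field `K`. -/
def NoSingularPoint {m : ℕ} (K : Type) [Field K] (F : MvPolynomial (Fin (2 * m + 2)) ℤ) : Prop :=
  ∀ x : Fin (2 * m + 2) → K, x ≠ 0 → MvPolynomial.aeval x F = 0 →
    ∃ i, MvPolynomial.aeval x (MvPolynomial.pderiv i F) ≠ 0

/-- Good reduction: the hypersurface `F = 0` is smooth modulo `p`. -/
def Good {m : ℕ} (F : MvPolynomial (Fin (2 * m + 2)) ℤ) (p : ℕ) : Prop :=
  ∀ (K : Type) [Field K] [CharP K p], NoSingularPoint K F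

/-- The number of the points of the hypersurface `F = 0` over the field `L`. -/
noncomputable def points {m : ℕ} (L : Type) [Field L] (F : MvPolynomial (Fin (2 * m + 2)) ℤ) : ℕ :=
  Nat.card {P : ℙ L (Fin (2 * m + 2) → L) // MvPolynomial.aeval P.rep F = 0}

/-- The number of the points over `𝔽_p` of the base locus `g_j = 0` (all `j`). -/
noncomputable def basePoints {J : Type} {m : ℕ} (g : J → MvPolynomial (Fin (2 * m + 2)) ℤ) (p : Nat.Primes) : ℕ :=
  haveI : Fact (p : ℕ).Prime := ⟨p.2⟩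
  Nat.card {P : ℙ (ZMod p) (Fin (2 * m + 2) → ZMod p) // ∀ j, MvPolynomial.aeval P.rep (g j) = 0}

/-- `α` is the list of the eigenvalues of the Frobenius at `p` on the middle cohomology `H^{2m}` of the hypersurface `F = 0` in `ℙ^{2m+1}`: they
have absolute value `p^m`, and `#X(L) = ∑_{i ≤ 2m} |L|^i - |L|^m + ∑_j α_j^k` for every field `L` with `p^k` elements. -/
structure IsFrobenius {m b : ℕ} (F : MvPolynomial (Fin (2 * m + 2)) ℤ) (p : ℕ) (α : Fin b → ℂ) : Prop where
  weight : ∀ j, ‖α j‖ = (p : ℝ) ^ m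
  count : ∀ (k : ℕ) (L : Type) [Field L], 1 ≤ k → Nat.card L = p ^ k →
    (points L F : ℂ) = ∑ i ∈ Finset.range (2 * m + 1), ((p : ℂ) ^ k) ^ i - ((p : ℂ) ^ k) ^ m + ∑ j, α j ^ k

open Classical in
/-- `L(H^{2m}(X), s)`, the Euler product over the primes of good reduction of the hypersurface `X : F = 0`. -/
noncomputable def LSeries {m b : ℕ} (F : MvPolynomial (Fin (2 * m + 2)) ℤ) (α : ℕ → Fin b → ℂ) (s : ℂ) : ℂ :=
  ∏' p : Nat.Primes, if Good F (p : ℕ) then ∏ j, (1 - α (p : ℕ) j * ((p : ℕ) : ℂ) ^ (-s))⁻¹ else 1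

/-- The integer vectors with coordinates of absolute value at most `H`. -/
noncomputable def box (ι : Type) [Fintype ι] [DecidableEq ι] (H : ℕ) : Finset (ι → ℤ) :=
  Fintype.piFinset fun _ => Finset.Icc (-(H : ℤ)) H

/-- The distribution of the absolute values of the members of a family of functions at the point `s₀`: a limit distribution function `Φ`
which is continuous and strictly increasing on `(0, ∞)`, with two-sided double exponential bounds for both tails. -/
def EdgeLaw {ι : Type} [Fintype ι] [DecidableEq ι] (s₀ : ℝ) (Y : (ι → ℤ) → ℂ → ℂ) : Prop :=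
  ∃ Φ : ℝ → ℝ, ContinuousOn Φ (Set.Ioi 0) ∧ StrictMonoOn Φ (Set.Ioi 0) ∧ (∀ τ : ℝ, 0 < τ → 0 < Φ τ ∧ Φ τ < 1) ∧
    (∃ c C A B τ₀ : ℝ, 0 < c ∧ 0 < C ∧ 0 < A ∧ 0 < B ∧ ∀ τ : ℝ, τ₀ ≤ τ →
      Real.exp (-Real.exp (C * τ ^ B)) ≤ Φ (1 / τ) ∧ Φ (1 / τ) ≤ Real.exp (-Real.exp (c * τ ^ A)) ∧
      Real.exp (-Real.exp (C * τ ^ B)) ≤ 1 - Φ τ ∧ 1 - Φ τ ≤ Real.exp (-Real.exp (c * τ ^ A))) ∧
    ∀ σ : ℕ → ℂ, Tendsto σ atTop (𝓝 (s₀ : ℂ)) →
      Tendsto (fun H : ℕ => ((σ H).re - s₀) * Real.log H) atTop atTop →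
      ∀ τ : ℝ, 0 < τ → Tendsto (fun H : ℕ => (((box ι H).filter (fun c => ‖Y c (σ H)‖ ≤ τ)).card : ℝ) /
        (box ι H).card) atTop (𝓝 (Φ τ))

theorem edgeLaw_of {ι : Type} [Fintype ι] [DecidableEq ι] {s₀ b : ℝ} (hb : 0 < b) {Y : (ι → ℤ) → ℂ → ℂ}
    (h : Pool.Agent.U309.ED.EdgeAt s₀ b Y) : EdgeLaw s₀ Y := by
  obtain ⟨Φ, h1, h2, h3, ⟨c, C, B, τ0, hc, hC, hB, h4⟩, h5⟩ := h
  exact ⟨Φ, h1, h2, h3, ⟨c, C, 1 / b, B, τ0, hc, hC, by positivity, hB, h4⟩, h5⟩

/-- **The L-functions of random hypersurfaces at the edge point `m + 1`.** -/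
theorem result {J : Type} [Fintype J] [DecidableEq J] {m b δ : ℕ} {d : J → ℕ} (g : J → MvPolynomial (Fin (2 * m + 2)) ℤ)
    -- degrees
    (hg : ∀ j, (g j).IsHomogeneous (δ - d j)) (hd : ∀ j, 3 ≤ d j ∧ d j ≤ δ)
    -- a smooth member
    (hs : ∃ c : Coeff m d → ℤ, NoSingularPoint ℂ (member g c))
    -- the Frobenius eigenvalues
    (α : (Coeff m d → ℤ) → ℕ → Fin b → ℂ)
    (hα : ∀ c p, p.Prime → Good (member g c) p → IsFrobenius (member g c) p (α c p))
    -- the base locus
    (hB : ∃ C : ℝ, ∀ p : Nat.Primes, (basePoints g p : ℝ) ≤ C * ((p : ℕ) : ℝ) ^ m) (e : ℕ)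
    (he : ∃ κ : ℂ, κ ≠ 0 ∧ Tendsto (fun s : ℂ => (s - ((m : ℂ) + 1)) ^ e *
      Complex.exp (∑' p : Nat.Primes, (basePoints g p : ℂ) * ((p : ℕ) : ℂ) ^ (-s))) (𝓝[{s : ℂ | (m : ℝ) + 1 < s.re}] ((m : ℂ) + 1)) (𝓝 κ)) :
    EdgeLaw ((m : ℝ) + 1) (fun (c : Coeff m d → ℤ) s => (s - ((m : ℂ) + 1)) ^ (1 + e) * LSeries (member g c) (α c) s) := by
  classical
  obtain ⟨c0, hc0⟩ := hs
  obtain ⟨C, hC⟩ := hB
  obtain ⟨κ, hκ, hlim⟩ := he
  have hwm : ((2 * m : ℕ) : ℝ) / 2 = m := by
    push_cast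
    ring
  have hw1 : 1 + ((2 * m : ℕ) : ℝ) / 2 = (m : ℝ) + 1 := by
    rw [hwm]
    ring
  -- the eigenvalues
  have hF : Pool.Agent.U309.ED.Hyp.Frob (w := 2 * m) g 1 1 α := by
    refine ⟨fun c p hp hsm j => ?_, fun c p hp hsm k hk L _ hL => ?_⟩
    · rw [hwm, Real.rpow_natCast]
      exact ((hα c p hp hsm).weight j).le
    · have h1 := (hα c p hp hsm).count k L hk hL
      have h2 : (Pool.Agent.U309.ED.Hyp.cnt (n := 2 * m + 1) L (Pool.Agent.U309.ED.Hyp.fam g c) : ℂ) =
          ∑ i ∈ Finset.range (2 * m + 1), ((p : ℂ) ^ k) ^ i - ((p : ℂ) ^ k) ^ m + ∑ j, α c p j ^ k := h1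
      have h3 : (p : ℝ) ^ ((k : ℝ) * (((2 * m : ℕ) : ℝ) / 2)) = ((p : ℝ) ^ k) ^ m := by
        rw [hwm, ← Nat.cast_mul, Real.rpow_natCast, pow_mul]
      rw [h3]
      push_cast
      rw [h2]
      ring
  -- the base locus
  obtain ⟨β, hβ⟩ : ∃ β : ℕ → ℝ, β = fun p => if hp : p.Prime then (basePoints g ⟨p, hp⟩ : ℝ) else 0 := ⟨_, rfl⟩
  have hβ1 : ∀ p : Nat.Primes, β (p : ℕ) = (basePoints g p : ℝ) := by
    intro p
    rw [hβ]
    exact dif_pos p.2
  have hβ2 : ∀ (p : ℕ) [Fact p.Prime], β p = (Pool.Agent.U309.ED.Hyp.bas (n := 2 * m + 1) (ZMod p) g : ℝ) := by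
    intro p hp
    exact hβ1 ⟨p, hp.out⟩
  have hβ3 : ∀ p : ℕ, p.Prime → β p ≤ |C| * (p : ℝ) ^ (((2 * m : ℕ) : ℝ) / 2) := by
    intro p hp
    rw [hwm, Real.rpow_natCast]
    have h1 := hC ⟨p, hp⟩
    have h2 := hβ1 ⟨p, hp⟩
    have h3 : C * (p : ℝ) ^ m ≤ |C| * (p : ℝ) ^ m := by
      gcongr
      exact le_abs_self C
    calc β p = (basePoints g ⟨p, hp⟩ : ℝ) := h2
      _ ≤ C * (p : ℝ) ^ m := h1
      _ ≤ _ := h3
  have hmain := Pool.Agent.U309.ED.Hyp.hyp_edge hF (fun j => (hd j).1) (Or.inl rfl) zero_le_one (abs_nonneg C) hβ2 hβ3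
    (a := fun j => δ - d j) (δ := δ) hg (fun j => Nat.sub_add_cancel (hd j).2) c0 hc0
  rw [hw1] at hmain
  refine edgeLaw_of (by positivity) (hmain.mul (F := fun s => ((s - ((m : ℂ) + 1)) * riemannZeta (s - m)) *
    ((s - ((m : ℂ) + 1)) ^ e * Complex.exp (∑' p : Nat.Primes, (basePoints g p : ℂ) * ((p : ℕ) : ℂ) ^ (-s)))) (κ := 1 * κ)
    (by rw [one_mul]; exact hκ) ?_ ?_)
  · -- the limit
    have h0 : (((m : ℝ) + 1 : ℝ) : ℂ) = (m : ℂ) + 1 := by
      push_cast
      rfl
    rw [h0]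
    refine Tendsto.mul ?_ hlim
    have h1 : Tendsto (fun s : ℂ => s - m) (𝓝[{s : ℂ | (m : ℝ) + 1 < s.re}] ((m : ℂ) + 1)) (𝓝[≠] 1) := by
      rw [tendsto_nhdsWithin_iff]
      refine ⟨?_, ?_⟩
      · have h2 : Tendsto (fun s : ℂ => s - m) (𝓝 ((m : ℂ) + 1)) (𝓝 ((m : ℂ) + 1 - m)) := by
          exact (continuous_id.sub continuous_const).tendsto _
        have h3 : (m : ℂ) + 1 - m = 1 := by ring
        rw [h3] at h2
        exact h2.mono_left nhdsWithin_le_nhds
      · filter_upwards [self_mem_nhdsWithin] with s hs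
        have hs' : (m : ℝ) + 1 < s.re := hs
        intro h4
        rw [Set.mem_singleton_iff] at h4
        have h5 := congrArg Complex.re h4
        simp only [Complex.sub_re, Complex.natCast_re, Complex.one_re] at h5
        linarith
    have h6 := riemannZeta_residue_one.comp h1
    refine h6.congr fun s => ?_
    simp only [Function.comp_apply]
    ring
  · -- the identity
    intro c s hs
    have hz : ∑' p : Nat.Primes, Pool.Agent.U309.ED.Hyp.lg (Pool.Agent.U309.ED.Hyp.Qp (2 * m) p * ((p : ℕ) : ℂ) ^ (-s)) =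
        ∑' p : Nat.Primes, -Complex.log (1 - ((p : ℕ) : ℂ) ^ (-(s - m))) := by
      refine tsum_congr fun p => ?_
      unfold Pool.Agent.U309.ED.Hyp.lg Pool.Agent.U309.ED.Hyp.Qp
      rw [hwm, Real.rpow_natCast]
      have hpc : ((p : ℕ) : ℂ) ≠ 0 := by exact_mod_cast p.2.ne_zero
      have e1 : (-(s - m) : ℂ) = m + -s := by ring
      rw [e1, Complex.cpow_add _ _ hpc, Complex.cpow_natCast]
      push_cast
      rfl
    have hzeta : Complex.exp (∑' p : Nat.Primes, -Complex.log (1 - ((p : ℕ) : ℂ) ^ (-(s - m)))) = riemannZeta (s - m) :=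
      riemannZeta_eulerProduct_exp_log (by
        simp only [Complex.sub_re, Complex.natCast_re]
        linarith)
    have hbe : ∑' p : Nat.Primes, (β (p : ℕ) : ℂ) * ((p : ℕ) : ℂ) ^ (-s) =
        ∑' p : Nat.Primes, (basePoints g p : ℂ) * ((p : ℕ) : ℂ) ^ (-s) := by
      refine tsum_congr fun p => ?_
      rw [hβ1 p]
      push_cast
      rfl
    have hL : LSeries (member g c) (α c) s = ∏' p : Nat.Primes, Pool.Agent.U309.ED.Hyp.eul (w := 2 * m) g α c s (p : ℕ) := rfl
    rw [hL, hz, hbe, ← hzeta]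
    set Z := ∑' p : Nat.Primes, -Complex.log (1 - ((p : ℕ) : ℂ) ^ (-(s - m)))
    set W := ∑' p : Nat.Primes, (basePoints g p : ℂ) * ((p : ℕ) : ℂ) ^ (-s)
    have e1 : Complex.exp (-(((1 : ℝ) : ℂ) * Z) - ((1 : ℝ) : ℂ) * W) = (Complex.exp Z)⁻¹ * (Complex.exp W)⁻¹ := by
      rw [← Complex.exp_neg, ← Complex.exp_neg, ← Complex.exp_add]
      congr 1
      push_cast
      ring
    rw [e1]
    have hZ := Complex.exp_ne_zero Z
    have hW := Complex.exp_ne_zero W
    field_simp
    ring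

end Pool.Agent.Results.MP_223b32_ag.RandomHypersurfaces
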