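import Pool.Agent.U407.NP12

/-!
The Tate classes of all codimensions, over all finite extensions, on the products of a surface
`y ^ p - y = f(x, t)` and an arbitrary variety over a finite field.
-/

set_option autoImplicit false
set_option maxHeartbeats 1000000

open Polynomial Module TensorProduct

namespace Pool.Agent.Results.MP_223b32_ag.TimesArtinSchreierSurfaces

section surface

variable {κ : Type} [Field κ]

/-- The polynomial `f` in `x` (outer variable) and `t` (inner variable) has the form
`f = u x ^ a + w t ^ b + (terms with x ^ m t ^ n for which b m + a n < a b)`, `u, w ≠ 0`. -/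
structure HasLeadingExponents (a b : ℕ) (f : κ[X][X]) : Prop where
  pos_a : a ≠ 0
  pos_b : b ≠ 0
  coeff_x : (f.coeff a).coeff 0 ≠ 0
  coeff_t : (f.coeff 0).coeff b ≠ 0
  rest : ∀ m n, (f.coeff m).coeff n ≠ 0 →
    (m = a ∧ n = 0) ∨ (m = 0 ∧ n = b) ∨ b * m + a * n < a * b

/-- The number of points `v = (t, x, y)` over the field with `Q` elements of the surface
`y ^ p - y = f(x, t)`. -/
noncomputable def points (p : ℕ) (f : κ[X][X]) (Q : ℕ) : ℕ :=
  Nat.card {v : AlgebraicClosure κ × AlgebraicClosure κ × AlgebraicClosure κ //
    v.1 ^ Q = v.1 ∧ v.2.1 ^ Q = v.2.1 ∧ v.2.2 ^ Q = v.2.2 ∧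
    v.2.2 ^ p - v.2.2 =
      f.eval₂ (eval₂RingHom (algebraMap κ (AlgebraicClosure κ)) v.1) v.2.1}

/-- The known properties of Frobenius `Φ` on the second cohomology with compact supports `V` of the
affine surface `y ^ p - y = f(x, t)` (the other groups with compact supports are `0` and, in
degree four, one-dimensional): the Lefschetz trace formula holds and `V` is pure of weight two. -/
structure IsCohomology (p : ℕ) (f : κ[X][X]) {V : Type} [AddCommGroup V] [Module ℂ V]
    (Φ : Module.End ℂ V) : Prop where
  trace : ∀ m : ℕ, m ≠ 0 → LinearMap.trace ℂ V (Φ ^ m) =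
    (points p f (Nat.card κ ^ m) : ℂ) - ((Nat.card κ : ℂ) ^ m) ^ 2
  pure : ∀ α, Φ.HasEigenvalue α → ‖α‖ = (Nat.card κ : ℝ)

/-- The known properties of Frobenius `F` on the whole cohomology `H` of a smooth projective
compactification of the affine surface: `W j` is the span of the classes of the algebraic cycles of
codimension `j`, `ι` is the natural map from the cohomology with compact supports. -/
structure IsCompactification (κ : Type) {V H : Type} [AddCommGroup V] [Module ℂ V]
    [AddCommGroup H] [Module ℂ H] (Φ : Module.End ℂ V) (F : Module.End ℂ H) (ι : V →ₗ[ℂ] H)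
    (W : ℤ → Submodule ℂ H) : Prop where
  comm : ∀ v, ι (Φ v) = F (ι v)
  algebraic : ∃ N : ℕ, N ≠ 0 ∧ ∀ j : ℤ, ∀ w ∈ W j, (F ^ N) w = ((Nat.card κ : ℂ) ^ j) ^ N • w
  span : (⨆ j, W j) ⊔ LinearMap.range ι = ⊤

end surface

/-- The span of the (generalized) Tate classes of codimension `r` over all finite extensions, for a
variety over the field with `q` elements with cohomology `Z` and Frobenius `G`: over the
extension of degree `m` these are the generalized eigenvectors for the eigenvalue `(q ^ m) ^ r`. -/
noncomputable def tateClasses {Z : Type} [AddCommGroup Z] [Module ℂ Z] (q : ℕ)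
    (G : Module.End ℂ Z) (r : ℤ) : Submodule ℂ Z :=
  ⨆ (m : ℕ) (_ : m ≠ 0), (G ^ m).maxGenEigenspace ((q : ℂ) ^ ((m : ℤ) * r))

/-- The slope of `β` for an embedding `τ` of the complex numbers in an algebraic closure of `ℚ_p`: the
`p`-adic valuation of `τ β`, normalized so that `q` has slope one. -/
noncomputable def slope (p : ℕ) [Fact p.Prime] (q : ℕ) (τ : ℂ →+* PadicAlgCl p) (β : ℂ) : ℝ :=
  Real.log ‖τ β‖ / Real.log ‖(q : PadicAlgCl p)‖

/-- The number `s` is not of the form `r + i / a + j / b` with `r ∈ ℤ`, `0 < i < a`, `0 < j < b`. For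
coprime `a` and `b` this means: if `a b s` is an integer then `a s` or `b s` is an integer. -/
def Avoids (a b : ℕ) (s : ℝ) : Prop :=
  ∀ (r : ℤ) (i j : ℕ), 0 < i → i < a → 0 < j → j < b → s ≠ r + i / a + j / b

/-- **Products of surfaces `y ^ p - y = f(x, t)` with arbitrary varieties.**

Let `p` be a prime, `κ` a finite field with `q` elements of characteristic `p`, let `a` and `b` divide
`p - 1`, and let `f = u x ^ a + w t ^ b + …` in `κ[x, t]`, where `u, w ≠ 0` and the other terms
`x ^ m t ^ n` have `m / a + n / b < 1` (all of them are allowed, with any coefficients). Let `𝒳` be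
any smooth projective surface over `κ` which contains the affine surface `U : y ^ p - y = f(x, t)` as
the complement of a union of curves. Let `H` be the cohomology of `𝒳` (all degrees, coefficients
`ℂ ≅ ℚ̄_ℓ`) and let `V = H ^ 2_c(U) ⊗ ℂ`. Then `H ^ 1(𝒳) = H ^ 3(𝒳) = 0` (`H ^ 1(𝒳) → H ^ 1(U)` is
injective and `H ^ 1(U)` is dual to `H ^ 3_c(U) = 0`), `H ^ 0` and `H ^ 4` are spanned by algebraic classes,
and `H ^ 2(𝒳)` is spanned by the classes of the curves at infinity and the image of `V`
(`IsCompactification`); `V` is pure of weight two (Deligne, Adolphson and Sperber, Denef and Loeser)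
and its traces are given by the Lefschetz formula (`IsCohomology`).

Let `𝒵` be **any** smooth projective variety over `κ` with cohomology `Z` and Frobenius `G`, and let
`r` be an integer.

(1) Suppose that each eigenvalue `β` of Frobenius on `H ^ (2 r - 2)(𝒵)` has a `p`-adic slope, for some
embedding `τ`, which is not of the form `n + i / a + j / b` with `n ∈ ℤ`, `0 < i < a`, `0 < j < b`. Then
the space of the (generalized) Tate classes of codimension `r` on `𝒳 × 𝒵`, over all finite
extensions, is **equal** to the sum of the products of the spaces of algebraic classes of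
codimension `j` on `𝒳` and of Tate classes of codimension `r - j` on `𝒵`, `j = 0, 1, 2`. (By Künneth
the cohomology of `𝒳 × 𝒵` is the tensor product.) So if `𝒵` satisfies the Tate conjecture, or the
strong Tate conjecture, in codimensions `r`, `r - 1`, `r - 2` over all finite extensions then
`𝒳 × 𝒵` satisfies it in codimension `r`.

(2) Every eigenvalue `γ` of Frobenius on the cohomology of `𝒳 × 𝒵` has, for all `τ`, the same slope as
an eigenvalue `β` on the cohomology of `𝒵` up to integral multiples of `1 / (a b)`, and `|γ| / |β|` is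
an integral power of `q`; so (1) can be applied again to `𝒳' × (𝒳 × 𝒵)` with another surface of this
kind, and so on.

For coprime `a`, `b` the condition in (1) holds for example if the slopes of `𝒵` in even degrees
have denominators prime to `a`, or prime to `b`: for curves, for ordinary varieties, for varieties
with slopes in `(1 / 2) ℤ`, for all K3 surfaces of finite height `h` prime to `a` or to `b`, and for all
`𝒵` whose Betti numbers are smaller than all prime factors of `a` (the denominator of a slope is
at most its multiplicity); also for all K3 surfaces of finite height `h` with `22 - ρ > 2 h`, because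
then each transcendental eigenvalue has the slope one for some `τ`. With (2) it holds for
products of surfaces of this kind with exponents `(a_i, b_i)` if each `a_i b_i` is prime to `a` or
each is prime to `b`. By Tate, if the strong Tate conjecture holds for `𝒵` in all codimensions then
for `𝒳 × 𝒵` and all `j` the order of the pole of the `L`-function of `H ^ (2 j)` at `s = j` is the
rank of the group of algebraic classes of codimension `j`. -/
theorem result {κ : Type} [Field κ] [Finite κ] {p : ℕ} [Fact p.Prime] [CharP κ p] {a b : ℕ}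
    {f : κ[X][X]} (hf : HasLeadingExponents a b f) (ha : a ∣ p - 1) (hb : b ∣ p - 1)
    {V : Type} [AddCommGroup V] [Module ℂ V] [FiniteDimensional ℂ V] {Φ : Module.End ℂ V}
    (h : IsCohomology p f Φ)
    {H : Type} [AddCommGroup H] [Module ℂ H] [FiniteDimensional ℂ H] {F : Module.End ℂ H}
    {ι : V →ₗ[ℂ] H} {W : ℤ → Submodule ℂ H} (hH : IsCompactification κ Φ F ι W)
    {Z : Type} [AddCommGroup Z] [Module ℂ Z] [FiniteDimensional ℂ Z] (G : Module.End ℂ Z) :
    (∀ r : ℤ, (∀ β, G.HasEigenvalue β → ‖β‖ = (Nat.card κ : ℝ) ^ (r - 1) →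
        ∃ τ : ℂ →+* PadicAlgCl p, Avoids a b (slope p (Nat.card κ) τ β)) →
      tateClasses (Nat.card κ) (TensorProduct.map F G) r =
        ⨆ j : ℤ, Submodule.map₂ (TensorProduct.mk ℂ H Z) (W j)
          (tateClasses (Nat.card κ) G (r - j))) ∧
    (∀ γ, Module.End.HasEigenvalue (TensorProduct.map F G) γ →
      ∃ β, G.HasEigenvalue β ∧ (∃ k : ℤ, ‖γ‖ = (Nat.card κ : ℝ) ^ k * ‖β‖) ∧
        ∀ τ : ℂ →+* PadicAlgCl p, ∃ k : ℤ,
          slope p (Nat.card κ) τ γ = slope p (Nat.card κ) τ β + k / (a * b)) := by
  classical
  have : Fintype κ := Fintype.ofFinite κ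
  have hcard : Nat.card κ = Fintype.card κ := Nat.card_eq_fintype_card
  have hD : Pool.Agent.U407.NP.Dg a b f :=
    ⟨hf.pos_a, hf.pos_b, hf.coeff_x, hf.coeff_t, hf.rest⟩
  have htr : ∀ m, m ≠ 0 → LinearMap.trace ℂ V (Φ ^ m) =
      (Pool.Agent.N867.AS.Trans.Npts p f (Fintype.card κ ^ m) : ℂ) -
        ((Fintype.card κ : ℂ) ^ m) ^ 2 := by
    intro m hm
    rw [← hcard]
    exact h.trace m hm
  have hpure : ∀ α, Φ.HasEigenvalue α → ‖α‖ = (Fintype.card κ : ℝ) := by
    rw [← hcard]
    exact h.pure
  have hW := hH.algebraic
  rw [hcard] at hW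
  refine ⟨fun r hgood => ?_, fun γ hγ => ?_⟩
  · rw [hcard] at hgood ⊢
    exact Pool.Agent.U407.NP.tc_product hD ha hb htr hpure hH.comm hW hH.span r hgood
  · rw [hcard]
    exact Pool.Agent.U407.NP.product_slopes' hD ha hb htr hpure hH.comm hW hH.span hγ

end Pool.Agent.Results.MP_223b32_ag.TimesArtinSchreierSurfaces
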